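import Pool.Agent.H683.CV.Lem

/-!
# Budgeted graph coloring: subsets coded by the bits of a number
-/

set_option autoImplicit false

namespace Pool.Agent.H274.CV

open Pool.Agent.H683.CV

theorem bt_eq (a j : ℕ) : bt a j = a.testBit j := by
  rw [Nat.testBit_eq_inth]
  rfl

theorem BITS : S_BITS := by
  intro p A hA
  refine ⟨Nat.ofBits (fun i : Fin p => decide ((i : ℕ) ∈ A)), Nat.ofBits_lt_two_pow _, ?_⟩
  intro j
  rw [bt_eq]
  by_cases h : j < p
  · rw [Nat.testBit_ofBits_lt _ _ h]
  · rw [Nat.testBit_ofBits_ge _ _ (not_lt.1 h)]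
    symm
    rw [decide_eq_false_iff_not]
    exact fun h' => h (Finset.mem_range.1 (hA h'))

end Pool.Agent.H274.CV
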